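import Mathlib

/-!
# Separating consecutive memory sizes in black-box optimisation

The search space consists of `μ + 1` special points and of `N` candidates. The value of the `i`-th
special point reveals the `i`-th share `r i ∈ ZMod N`, and the only maximiser is the candidate
`∑ i, r i`. With memory `μ + 1` one queries all special points and then the maximiser. With memory
`μ` the first `μ + 2` queries find the maximiser only with a small probability: any `μ` shares say
nothing about the maximiser, and if the first `μ + 1` queries are the special points, then one of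
the shares has been dropped before the next query is chosen.
-/

open scoped ENNReal Classical
open Finset

namespace Pool.Agent.Results.MP_baa74b_lc.MemorySeparation

/-- A `(μ + 1)` memory-restricted black-box algorithm on `S`. It has a distribution of the `μ`
initial points, a distribution of the next query for every stored multiset of pairs
`(x, f x)`, and for every multiset of `μ + 1` pairs a distribution of the multiset which remains
after one of the pairs is removed. -/
structure Alg (S : Type) (μ : ℕ) where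
  init : PMF (Fin μ → S)
  query : Multiset (S × ℝ) → PMF S
  keep : Multiset (S × ℝ) → PMF (Multiset (S × ℝ))
  keep_spec : ∀ X : Multiset (S × ℝ), Multiset.card X = μ + 1 → ∀ Y ∈ (keep X).support,
    ∃ a : S × ℝ, a ::ₘ Y = X

variable {S : Type} {μ : ℕ}

/-- `x` maximises `f`. -/
def IsMaximiser (f : S → ℝ) (x : S) : Prop := ∀ y, f y ≤ f x

/-- The multiset of the pairs `(x i, f (x i))`. -/
def memory {k : ℕ} (f : S → ℝ) (x : Fin k → S) : Multiset (S × ℝ) :=
  (univ : Finset (Fin k)).val.map fun i => (x i, f (x i))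

/-- One round, on pairs of a stored multiset and a flag which records whether a maximiser has been
queried. -/
noncomputable def round (A : Alg S μ) (f : S → ℝ) (s : Multiset (S × ℝ) × Bool) :
    PMF (Multiset (S × ℝ) × Bool) :=
  (A.query s.1).bind fun y =>
    (A.keep ((y, f y) ::ₘ s.1)).map fun Y => (Y, s.2 || decide (IsMaximiser f y))

/-- The distribution of the stored multiset and of the flag after `k` rounds. -/
noncomputable def state (A : Alg S μ) (f : S → ℝ) : ℕ → PMF (Multiset (S × ℝ) × Bool)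
  | 0 => A.init.map fun x => (memory f x, decide (∃ i, IsMaximiser f (x i)))
  | k + 1 => (state A f k).bind (round A f)

/-- The probability that none of the first `t` queries is a maximiser of `f`. The first `μ` queries
are the initial ones, in their order. -/
noncomputable def tail (A : Alg S μ) (f : S → ℝ) (t : ℕ) : ℝ≥0∞ :=
  if t < μ then
    A.init.toOuterMeasure {x | ∀ i : Fin μ, (i : ℕ) < t → ¬ IsMaximiser f (x i)}
  else (state A f (t - μ)).toOuterMeasure {s | s.2 = false}

/-- The expected number of queries up to and including the first query of a maximiser, as the sum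
of the probabilities that more than `t` queries are needed. -/
noncomputable def expTime (A : Alg S μ) (f : S → ℝ) : ℝ≥0∞ := ∑' t : ℕ, tail A f t

/-- The `(μ + 1)` memory-restricted black-box complexity of the class `F`. -/
noncomputable def complexity (μ : ℕ) (F : Set (S → ℝ)) : ℝ≥0∞ :=
  ⨅ A : Alg S μ, ⨆ f ∈ F, expTime A f

/-! ### Expectations -/

/-- The expectation of `g`. -/
noncomputable def ex {α : Type} (p : PMF α) (g : α → ℝ≥0∞) : ℝ≥0∞ := ∑' a, p a * g a

lemma ex_const {α : Type} (p : PMF α) (c : ℝ≥0∞) : ex p (fun _ => c) = c := by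
  unfold ex
  rw [ENNReal.tsum_mul_right, p.tsum_coe, one_mul]

lemma ex_bind {α β : Type} (p : PMF α) (k : α → PMF β) (g : β → ℝ≥0∞) :
    ex (p.bind k) g = ex p fun a => ex (k a) g := by
  unfold ex
  simp only [PMF.bind_apply, ← ENNReal.tsum_mul_right, ← ENNReal.tsum_mul_left]
  rw [ENNReal.tsum_comm]
  refine tsum_congr fun a => tsum_congr fun b => ?_
  rw [mul_assoc]

lemma ex_pure {α : Type} (a : α) (g : α → ℝ≥0∞) : ex (PMF.pure a) g = g a := by
  unfold ex
  rw [tsum_eq_single a]
  · simp
  · intro b hb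
    simp [PMF.pure_apply, hb]

lemma ex_map {α β : Type} (p : PMF α) (h : α → β) (g : β → ℝ≥0∞) :
    ex (p.map h) g = ex p fun a => g (h a) := by
  rw [← PMF.bind_pure_comp, ex_bind]
  congr 1
  ext a
  exact ex_pure _ _

lemma ex_mono {α : Type} (p : PMF α) {g g' : α → ℝ≥0∞} (h : ∀ a ∈ p.support, g a ≤ g' a) :
    ex p g ≤ ex p g' := by
  unfold ex
  refine ENNReal.tsum_le_tsum fun a => ?_
  by_cases ha : a ∈ p.support
  · exact mul_le_mul_right (h a ha) _
  · rw [PMF.mem_support_iff, not_not] at ha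
    rw [ha]
    simp

lemma ex_add {α : Type} (p : PMF α) (g g' : α → ℝ≥0∞) :
    ex p (fun a => g a + g' a) = ex p g + ex p g' := by
  unfold ex
  rw [← ENNReal.tsum_add]
  refine tsum_congr fun a => ?_
  rw [mul_add]

lemma ex_sum {α ι : Type} (p : PMF α) (s : Finset ι) (g : ι → α → ℝ≥0∞) :
    ex p (fun a => ∑ i ∈ s, g i a) = ∑ i ∈ s, ex p (g i) := by
  unfold ex
  simp only [mul_sum]
  rw [Summable.tsum_finsetSum fun _ _ => ENNReal.summable]

lemma toOuterMeasure_eq_ex {α : Type} (p : PMF α) (s : Set α) :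
    p.toOuterMeasure s = ex p (fun a => if a ∈ s then 1 else 0) := by
  rw [PMF.toOuterMeasure_apply]
  unfold ex
  refine tsum_congr fun a => ?_
  by_cases h : a ∈ s <;> simp [h]

/-! ### The tail probabilities -/

/-- The indicator of a false flag. -/
noncomputable def alive (s : Multiset (S × ℝ) × Bool) : ℝ≥0∞ := if s.2 = false then 1 else 0

lemma tail_eq (A : Alg S μ) (f : S → ℝ) (k : ℕ) : tail A f (μ + k) = ex (state A f k) alive := by
  unfold tail
  rw [if_neg (by omega), Nat.add_sub_cancel_left, toOuterMeasure_eq_ex]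
  congr 1
  funext s
  simp [alive]

lemma tail_le_one (A : Alg S μ) (f : S → ℝ) (t : ℕ) : tail A f t ≤ 1 := by
  unfold tail
  have key : ∀ {α : Type} (p : PMF α) (s : Set α), p.toOuterMeasure s ≤ 1 := by
    intro α p s
    rw [toOuterMeasure_eq_ex]
    refine le_trans (ex_mono p fun a _ => ?_) (ex_const p 1).le
    by_cases h : a ∈ s <;> simp [h]
  split_ifs
  · exact key _ _
  · exact key _ _

lemma ex_state_succ_le (A : Alg S μ) (f : S → ℝ) (k : ℕ) :
    ex (state A f (k + 1)) alive ≤ ex (state A f k) alive := by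
  show ex ((state A f k).bind (round A f)) alive ≤ _
  rw [ex_bind]
  refine ex_mono _ fun s _ => ?_
  unfold round
  rw [ex_bind]
  simp only [ex_map]
  by_cases hs : s.2 = false
  · have h1 : alive s = 1 := by simp [alive, hs]
    rw [h1, ← ex_const (A.query s.1) 1]
    refine ex_mono _ fun y _ => ?_
    rw [← ex_const (A.keep ((y, f y) ::ₘ s.1)) 1]
    refine ex_mono _ fun Y _ => ?_
    unfold alive
    split_ifs
    · exact le_rfl
    · exact bot_le
  · rw [Bool.not_eq_false] at hs
    have h2 : ∀ (y : S) (Y : Multiset (S × ℝ)),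
        alive (Y, s.2 || decide (IsMaximiser f y)) = 0 := by
      intro y Y
      simp [alive, hs]
    simp only [h2, ex_const]
    exact bot_le

lemma tail_antitone_small (A : Alg S μ) (f : S → ℝ) {t : ℕ} (ht : t < μ + 3) :
    tail A f (μ + 2) ≤ tail A f t := by
  have h1 : tail A f (μ + 2) ≤ tail A f (μ + 1) := by
    rw [tail_eq, tail_eq]
    exact ex_state_succ_le A f 1
  have h0 : tail A f (μ + 1) ≤ tail A f (μ + 0) := by
    rw [tail_eq, tail_eq]
    exact ex_state_succ_le A f 0
  rcases Nat.lt_or_ge t μ with h | h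
  · refine (h1.trans h0).trans ?_
    rw [tail_eq]
    unfold tail
    rw [if_pos h, toOuterMeasure_eq_ex]
    show ex (A.init.map _) alive ≤ _
    rw [ex_map]
    refine ex_mono _ fun x _ => ?_
    unfold alive
    by_cases hx : ∃ i, IsMaximiser f (x i)
    · rw [if_neg (by simpa using hx)]
      exact bot_le
    · rw [if_pos (by simpa using hx), if_pos]
      intro i _ hi
      exact hx ⟨i, hi⟩
  · have : t = μ ∨ t = μ + 1 ∨ t = μ + 2 := by omega
    rcases this with rfl | rfl | rfl
    · exact h1.trans h0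
    · exact h1
    · exact le_rfl

/-! ### The class -/

/-- The search space: `μ + 1` special points and `N` candidates. -/
abbrev Space (μ N : ℕ) : Type := Fin (μ + 1) ⊕ ZMod N

/-- The function with the shares `r`. The special point `i` has the value `-(r i + 1)`, the
candidate `∑ i, r i` has the value `1` and the other candidates have the value `0`. -/
noncomputable def fn {μ N : ℕ} (r : Fin (μ + 1) → ZMod N) : Space μ N → ℝ
  | Sum.inl i => -((r i).val + 1 : ℝ)
  | Sum.inr z => if z = ∑ i, r i then 1 else 0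

/-- The same function with the value `0` at the maximiser. -/
noncomputable def fn' {μ N : ℕ} (r : Fin (μ + 1) → ZMod N) : Space μ N → ℝ
  | Sum.inl i => -((r i).val + 1 : ℝ)
  | Sum.inr _ => 0

/-- The class of all these functions. -/
def cls (μ N : ℕ) : Set (Space μ N → ℝ) := Set.range fn

/-- The maximiser. -/
def opt {μ N : ℕ} (r : Fin (μ + 1) → ZMod N) : Space μ N := Sum.inr (∑ i, r i)

lemma isMaximiser_iff {μ N : ℕ} (r : Fin (μ + 1) → ZMod N) (x : Space μ N) :
    IsMaximiser (fn r) x ↔ x = opt r := by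
  have h1 : ∀ y, fn r y ≤ 1 := by
    rintro (i | z)
    · have : (0 : ℝ) ≤ (r i).val := Nat.cast_nonneg _
      show -((r i).val + 1 : ℝ) ≤ 1
      linarith
    · show (if z = ∑ i, r i then (1 : ℝ) else 0) ≤ 1
      split_ifs <;> norm_num
  have h2 : fn r (opt r) = 1 := by
    show (if (∑ i, r i) = ∑ i, r i then (1 : ℝ) else 0) = 1
    rw [if_pos rfl]
  constructor
  · intro h
    have h3 := h (opt r)
    rw [h2] at h3
    rcases x with i | z
    · have : (0 : ℝ) ≤ (r i).val := Nat.cast_nonneg _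
      have h4 : (1 : ℝ) ≤ -((r i).val + 1 : ℝ) := h3
      linarith
    · by_contra hne
      have h4 : (1 : ℝ) ≤ (if z = ∑ i, r i then (1 : ℝ) else 0) := h3
      rw [if_neg] at h4
      · norm_num at h4
      · rintro rfl
        exact hne rfl
  · rintro rfl y
    rw [h2]
    exact h1 y

lemma fn'_eq {μ N : ℕ} (r : Fin (μ + 1) → ZMod N) {x : Space μ N} (hx : x ≠ opt r) :
    fn' r x = fn r x := by
  rcases x with i | z
  · rfl
  · show (0 : ℝ) = if z = ∑ i, r i then 1 else 0
    rw [if_neg]
    rintro rfl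
    exact hx rfl

/-! ### The upper bound -/

/-- The share encoded by a value. -/
noncomputable def dec {N : ℕ} (v : ℝ) : ZMod N := ((⌊-v⌋₊ - 1 : ℕ) : ZMod N)

lemma dec_fn {μ N : ℕ} [NeZero N] (r : Fin (μ + 1) → ZMod N) (i : Fin (μ + 1)) :
    dec (fn r (Sum.inl i)) = r i := by
  unfold dec
  have h1 : -(fn r (Sum.inl i)) = (((r i).val + 1 : ℕ) : ℝ) := by
    show -(-((r i).val + 1 : ℝ)) = _
    push_cast
    ring
  rw [h1, Nat.floor_natCast, Nat.add_sub_cancel, ZMod.natCast_zmod_val]

/-- Query all special points and then the sum of the shares. -/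
noncomputable def goodAlg (μ N : ℕ) : Alg (Space μ N) (μ + 1) where
  init := PMF.pure fun i => Sum.inl i
  query X := PMF.pure (Sum.inr (X.map fun a => dec a.2).sum)
  keep X := if h : X = 0 then PMF.pure 0 else
    PMF.pure (X.erase (Multiset.exists_mem_of_ne_zero h).choose)
  keep_spec := by
    intro X hX Y hY
    have h : X ≠ 0 := by
      rintro rfl
      simp at hX
    rw [dif_neg h] at hY
    rw [PMF.support_pure, Set.mem_singleton_iff] at hY
    refine ⟨(Multiset.exists_mem_of_ne_zero h).choose, ?_⟩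
    rw [hY]
    exact Multiset.cons_erase (Multiset.exists_mem_of_ne_zero h).choose_spec

lemma goodAlg_tail {μ N : ℕ} [NeZero N] (r : Fin (μ + 1) → ZMod N) (k : ℕ) :
    tail (goodAlg μ N) (fn r) (μ + 1 + (k + 1)) = 0 := by
  rw [tail_eq]
  induction k with
  | zero =>
    show ex ((state (goodAlg μ N) (fn r) 0).bind (round (goodAlg μ N) (fn r))) alive = 0
    rw [ex_bind]
    show ex ((goodAlg μ N).init.map _) _ = 0
    rw [ex_map]
    show ex (PMF.pure _) _ = 0
    rw [ex_pure]
    unfold round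
    rw [ex_bind]
    show ex (PMF.pure _) _ = 0
    rw [ex_pure, ex_map]
    have h1 : ((memory (fn r) (fun i : Fin (μ + 1) => (Sum.inl i : Space μ N))).map
        fun a => (dec a.2 : ZMod N)).sum = ∑ i, r i := by
      unfold memory
      rw [Multiset.map_map]
      show ∑ i : Fin (μ + 1), dec (fn r (Sum.inl i)) = ∑ i, r i
      exact sum_congr rfl fun i _ => dec_fn r i
    simp only [h1]
    have h2 : IsMaximiser (fn r) (Sum.inr (∑ i, r i)) := (isMaximiser_iff r _).2 rfl
    have h3 : ∀ (Y : Multiset (Space μ N × ℝ)) (b : Bool),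
        alive (Y, b || decide (IsMaximiser (fn r) (Sum.inr (∑ i, r i)))) = 0 := by
      intro Y b
      simp [alive, h2]
    simp only [h3, ex_const]
  | succ k ih =>
    have h := ex_state_succ_le (goodAlg μ N) (fn r) (k + 1)
    rw [ih] at h
    exact le_antisymm h bot_le

lemma upper (μ N : ℕ) [NeZero N] : complexity (μ + 1) (cls μ N) ≤ (μ + 2 : ℕ) := by
  unfold complexity
  refine (iInf_le _ (goodAlg μ N)).trans ?_
  refine iSup₂_le fun f hf => ?_
  obtain ⟨r, rfl⟩ := hf
  unfold expTime
  rw [tsum_eq_sum (s := range (μ + 2))]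
  · calc ∑ t ∈ range (μ + 2), tail (goodAlg μ N) (fn r) t ≤ ∑ _t ∈ range (μ + 2), (1 : ℝ≥0∞) :=
        sum_le_sum fun t _ => tail_le_one _ _ _
      _ = (μ + 2 : ℕ) := by simp
  · intro t ht
    rw [mem_range, not_lt] at ht
    obtain ⟨k, rfl⟩ : ∃ k, t = μ + 1 + (k + 1) := ⟨t - (μ + 2), by omega⟩
    exact goodAlg_tail r k

/-! ### The lower bound -/

/-- A share which is not used makes the maximiser uniformly distributed. -/
lemma uniform {μ N : ℕ} [NeZero N] (j : Fin (μ + 1))
    (Φ : (Fin (μ + 1) → ZMod N) → ZMod N → ℝ≥0∞)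
    (hΦ : ∀ r a, Φ (r + Pi.single j a) = Φ r) :
    (N : ℝ≥0∞) * ∑ r, Φ r (∑ i, r i) = ∑ r, ∑ z, Φ r z := by
  have h1 : ∀ a : ZMod N, ∑ r, Φ r (∑ i, r i) = ∑ r, Φ r ((∑ i, r i) + a) := by
    intro a
    rw [← Equiv.sum_comp (Equiv.addRight (Pi.single j a : Fin (μ + 1) → ZMod N))]
    refine sum_congr rfl fun r _ => ?_
    have h2 : (∑ i, (r + Pi.single j a : Fin (μ + 1) → ZMod N) i) = (∑ i, r i) + a := by
      simp only [Pi.add_apply]
      rw [sum_add_distrib, Finset.sum_pi_single']
      simp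
    rw [Equiv.coe_addRight, hΦ, h2]
  calc (N : ℝ≥0∞) * ∑ r, Φ r (∑ i, r i) = ∑ _a : ZMod N, ∑ r, Φ r (∑ i, r i) := by
        rw [sum_const, card_univ, ZMod.card, nsmul_eq_mul]
    _ = ∑ a : ZMod N, ∑ r, Φ r ((∑ i, r i) + a) := sum_congr rfl fun a _ => h1 a
    _ = ∑ r, ∑ a : ZMod N, Φ r ((∑ i, r i) + a) := sum_comm
    _ = ∑ r, ∑ z, Φ r z := by
        refine sum_congr rfl fun r _ => ?_
        exact Equiv.sum_comp (Equiv.addLeft (∑ i, r i)) (Φ r)

lemma sum_inr_le {μ N : ℕ} [NeZero N] (p : PMF (Space μ N)) : ∑ z, p (Sum.inr z) ≤ 1 := by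
  have h1 : ∑ x : Space μ N, p x = 1 := by
    rw [← p.tsum_coe, tsum_fintype]
  rw [← h1, Fintype.sum_sum_type]
  exact le_add_self

/-- The memory does not depend on a share whose special point is not stored. -/
lemma fn'_shift {μ N : ℕ} (r : Fin (μ + 1) → ZMod N) (j : Fin (μ + 1)) (a : ZMod N)
    {x : Space μ N} (hx : x ≠ Sum.inl j) : fn' (r + Pi.single j a) x = fn' r x := by
  rcases x with i | z
  · have hij : i ≠ j := fun h => hx (by rw [h])
    have h1 : (r + Pi.single j a : Fin (μ + 1) → ZMod N) i = r i := by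
      rw [Pi.add_apply, Pi.single_eq_of_ne hij, add_zero]
    show -(((r + Pi.single j a : Fin (μ + 1) → ZMod N) i).val + 1 : ℝ) = -((r i).val + 1 : ℝ)
    rw [h1]
  · rfl

lemma memory_shift {μ N k : ℕ} (r : Fin (μ + 1) → ZMod N) (j : Fin (μ + 1)) (a : ZMod N)
    {x : Fin k → Space μ N} (hx : ∀ i, x i ≠ Sum.inl j) :
    memory (fn' (r + Pi.single j a)) x = memory (fn' r) x := by
  unfold memory
  refine Multiset.map_congr rfl fun i _ => ?_
  rw [fn'_shift r j a (hx i)]

/-- The multiset of all special points with their values. -/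
noncomputable def full {μ N : ℕ} (r : Fin (μ + 1) → ZMod N) : Multiset (Space μ N × ℝ) :=
  (univ : Finset (Fin (μ + 1))).val.map fun i => (Sum.inl i, fn' r (Sum.inl i))

/-- The multiset of all special points but one with their values. -/
noncomputable def fullBut {μ N : ℕ} (r : Fin (μ + 1) → ZMod N) (j : Fin (μ + 1)) :
    Multiset (Space μ N × ℝ) :=
  ((univ : Finset (Fin (μ + 1))).erase j).val.map fun i => (Sum.inl i, fn' r (Sum.inl i))

lemma full_eq {μ N : ℕ} (r : Fin (μ + 1) → ZMod N) (j : Fin (μ + 1)) :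
    full r = (Sum.inl j, fn' r (Sum.inl j)) ::ₘ fullBut r j := by
  unfold full fullBut
  rw [← Multiset.map_cons (fun i : Fin (μ + 1) => ((Sum.inl i : Space μ N), fn' r (Sum.inl i)))]
  congr 1
  rw [Finset.erase_val]
  exact (Multiset.cons_erase (mem_univ j)).symm

lemma fullBut_shift {μ N : ℕ} (r : Fin (μ + 1) → ZMod N) (j : Fin (μ + 1)) (a : ZMod N) :
    fullBut (r + Pi.single j a) j = fullBut r j := by
  unfold fullBut
  refine Multiset.map_congr rfl fun i hi => ?_
  have hij : i ≠ j := Finset.ne_of_mem_erase (Finset.mem_def.2 hi)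
  rw [fn'_shift r j a (fun h => hij (Sum.inl_injective h))]

lemma card_memory {k : ℕ} (f : S → ℝ) (x : Fin k → S) : Multiset.card (memory f x) = k := by
  simp [memory]

/-- If all special points are stored, then nothing else is. -/
lemma cons_eq_full {μ N : ℕ} (r : Fin (μ + 1) → ZMod N) (x : Fin μ → Space μ N) (y : Space μ N)
    (h : ∀ j : Fin (μ + 1), y = Sum.inl j ∨ ∃ i, x i = Sum.inl j) :
    (y, fn' r y) ::ₘ memory (fn' r) x = full r := by
  symm
  refine Multiset.eq_of_le_of_card_le ?_ ?_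
  · rw [Multiset.le_iff_subset]
    · intro a ha
      unfold full at ha
      rw [Multiset.mem_map] at ha
      obtain ⟨j, -, rfl⟩ := ha
      rcases h j with h1 | ⟨i, hi⟩
      · rw [h1]
        exact Multiset.mem_cons_self _ _
      · refine Multiset.mem_cons_of_mem ?_
        unfold memory
        rw [Multiset.mem_map]
        exact ⟨i, Finset.mem_def.1 (mem_univ _), by rw [hi]⟩
    · unfold full
      refine Multiset.Nodup.map ?_ (univ : Finset (Fin (μ + 1))).nodup
      intro i i' hii
      have := congrArg Prod.fst hii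
      exact Sum.inl_injective this
  · rw [Multiset.card_cons, card_memory]
    simp [full]

section Lower

variable {N : ℕ} [NeZero N] (A : Alg (Space μ N) μ)

/-- The probability of the query `opt r` for the stored multiset `Y`. -/
noncomputable def qOpt (r : Fin (μ + 1) → ZMod N) (Y : Multiset (Space μ N × ℝ)) : ℝ≥0∞ :=
  A.query Y (opt r)

/-- Dummy process: the probability that the query `μ + 2` is the maximiser. -/
noncomputable def last (r : Fin (μ + 1) → ZMod N) (x : Fin μ → Space μ N) : ℝ≥0∞ :=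
  ex (A.query (memory (fn' r) x)) fun y =>
    ex (A.keep ((y, fn' r y) ::ₘ memory (fn' r) x)) (qOpt A r)

lemma sum_qOpt_le (j : Fin (μ + 1)) (M : (Fin (μ + 1) → ZMod N) → Multiset (Space μ N × ℝ))
    (hM : ∀ r a, M (r + Pi.single j a) = M r) :
    (N : ℝ≥0∞) * ∑ r, qOpt A r (M r) ≤ (Fintype.card (Fin (μ + 1) → ZMod N) : ℕ) := by
  unfold qOpt opt
  rw [uniform j (fun r z => A.query (M r) (Sum.inr z)) (fun r a => by
    funext z
    rw [hM])]
  calc ∑ r, ∑ z, (A.query (M r)) (Sum.inr z) ≤ ∑ _r : Fin (μ + 1) → ZMod N, (1 : ℝ≥0∞) :=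
        sum_le_sum fun r _ => sum_inr_le _
    _ = _ := by simp

omit [NeZero N] in
lemma exists_missing (x : Fin μ → Space μ N) : ∃ j : Fin (μ + 1), ∀ i, x i ≠ Sum.inl j := by
  by_contra hcon
  push Not at hcon
  choose g hg using hcon
  have hinj : Function.Injective g := by
    intro j j' h
    have h1 := hg j
    rw [h, hg j'] at h1
    exact (Sum.inl_injective h1).symm
  have := Fintype.card_le_of_injective g hinj
  simp at this

lemma sum_last_le (x : Fin μ → Space μ N) :
    (N : ℝ≥0∞) * ∑ r, last A r x ≤ (μ + 2 : ℕ) * (Fintype.card (Fin (μ + 1) → ZMod N) : ℕ) := by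
  set K : ℝ≥0∞ := ((Fintype.card (Fin (μ + 1) → ZMod N) : ℕ) : ℝ≥0∞) with hK
  set Full : Space μ N → Prop := fun y => ∀ j : Fin (μ + 1), y = Sum.inl j ∨ ∃ i, x i = Sum.inl j
    with hFull
  -- the contribution of a query `y`
  set c : (Fin (μ + 1) → ZMod N) → Space μ N → ℝ≥0∞ := fun r y =>
    A.query (memory (fn' r) x) y *
      ex (A.keep ((y, fn' r y) ::ₘ memory (fn' r) x)) (qOpt A r) with hc
  have h0 : ∀ r, last A r x = ∑ y, c r y := by
    intro r
    unfold last ex
    rw [tsum_fintype]
    rfl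
  have h1 : ∀ r, ∑ y, c r y = ∑ y with Full y, c r y + ∑ y with ¬ Full y, c r y := fun r =>
    (sum_filter_add_sum_filter_not _ _ _).symm
  -- queries after which all shares are stored
  have h2 : ∀ r, ∑ y with Full y, c r y ≤ ∑ j, qOpt A r (fullBut r j) := by
    intro r
    have h3 : ∀ y ∈ univ.filter Full, c r y ≤
        A.query (memory (fn' r) x) y * ∑ j, qOpt A r (fullBut r j) := by
      intro y hy
      rw [mem_filter] at hy
      refine mul_le_mul_right ?_ _
      rw [cons_eq_full r x y hy.2]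
      rw [← ex_const (A.keep (full r)) (∑ j, qOpt A r (fullBut r j))]
      refine ex_mono _ fun Y hY => ?_
      have hcard : Multiset.card (full r) = μ + 1 := by simp [full]
      obtain ⟨a, ha⟩ := A.keep_spec (full r) hcard Y hY
      have hmem : a ∈ full r := by
        rw [← ha]
        exact Multiset.mem_cons_self _ _
      unfold full at hmem
      rw [Multiset.mem_map] at hmem
      obtain ⟨j, -, rfl⟩ := hmem
      rw [full_eq r j, Multiset.cons_inj_right] at ha
      rw [ha]
      exact single_le_sum (f := fun j => qOpt A r (fullBut r j)) (fun _ _ => bot_le) (mem_univ j)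
    refine (sum_le_sum h3).trans ?_
    rw [← sum_mul]
    have h4 : ∑ y ∈ univ.filter Full, A.query (memory (fn' r) x) y ≤ 1 := by
      have h5 : ∑ y : Space μ N, A.query (memory (fn' r) x) y = 1 := by
        rw [← (A.query (memory (fn' r) x)).tsum_coe, tsum_fintype]
      rw [← h5]
      exact sum_le_sum_of_subset (filter_subset _ _)
    calc _ ≤ 1 * ∑ j, qOpt A r (fullBut r j) := mul_le_mul_left h4 _
      _ = _ := one_mul _
  have h3 : (N : ℝ≥0∞) * ∑ r, ∑ y with Full y, c r y ≤ (μ + 1 : ℕ) * K := by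
    calc (N : ℝ≥0∞) * ∑ r, ∑ y with Full y, c r y
        ≤ (N : ℝ≥0∞) * ∑ r, ∑ j, qOpt A r (fullBut r j) :=
          mul_le_mul_right (sum_le_sum fun r _ => h2 r) _
      _ = ∑ j : Fin (μ + 1), (N : ℝ≥0∞) * ∑ r, qOpt A r (fullBut r j) := by
          rw [sum_comm, mul_sum]
      _ ≤ ∑ _j : Fin (μ + 1), K :=
          sum_le_sum fun j _ => sum_qOpt_le A j (fun r => fullBut r j)
            (fun r a => fullBut_shift r j a)
      _ = (μ + 1 : ℕ) * K := by simp
  -- other queries
  have h4 : ∀ y, ¬ Full y → (N : ℝ≥0∞) * ∑ r, c r y ≤ ∑ r, A.query (memory (fn' r) x) y := by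
    intro y hy
    rw [hFull] at hy
    push Not at hy
    obtain ⟨j, hj1, hj2⟩ := hy
    set Φ : (Fin (μ + 1) → ZMod N) → ZMod N → ℝ≥0∞ := fun r z =>
      A.query (memory (fn' r) x) y *
        ex (A.keep ((y, fn' r y) ::ₘ memory (fn' r) x)) (fun Y => A.query Y (Sum.inr z)) with hΦ
    have h5 : ∀ r a, Φ (r + Pi.single j a) = Φ r := by
      intro r a
      funext z
      rw [hΦ]
      simp only
      rw [memory_shift r j a hj2, fn'_shift r j a hj1]
    have h6 : ∀ r, c r y = Φ r (∑ i, r i) := fun r => rfl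
    simp only [h6]
    rw [uniform j Φ h5]
    refine sum_le_sum fun r _ => ?_
    rw [hΦ]
    simp only
    rw [← mul_sum, ← ex_sum]
    calc _ ≤ A.query (memory (fn' r) x) y *
          ex (A.keep ((y, fn' r y) ::ₘ memory (fn' r) x)) (fun _ => 1) :=
            mul_le_mul_right (ex_mono _ fun Y _ => sum_inr_le _) _
      _ = _ := by rw [ex_const, mul_one]
  have h5 : (N : ℝ≥0∞) * ∑ r, ∑ y with ¬ Full y, c r y ≤ K := by
    rw [sum_comm, mul_sum]
    calc ∑ y with ¬ Full y, (N : ℝ≥0∞) * ∑ r, c r y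
        ≤ ∑ y with ¬ Full y, ∑ r, A.query (memory (fn' r) x) y :=
          sum_le_sum fun y hy => h4 y (mem_filter.1 hy).2
      _ ≤ ∑ y, ∑ r, A.query (memory (fn' r) x) y :=
          sum_le_sum_of_subset (filter_subset _ _)
      _ = ∑ r, ∑ y, A.query (memory (fn' r) x) y := sum_comm
      _ = ∑ _r : Fin (μ + 1) → ZMod N, (1 : ℝ≥0∞) := by
          refine sum_congr rfl fun r _ => ?_
          rw [← (A.query (memory (fn' r) x)).tsum_coe, tsum_fintype]
      _ = K := by simp [hK]
  simp only [h0, h1]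
  rw [sum_add_distrib, mul_add]
  calc _ ≤ (μ + 1 : ℕ) * K + K := add_le_add h3 h5
    _ = (μ + 2 : ℕ) * K := by push_cast; ring

/-- The first `μ + 2` queries. -/
lemma one_le (r : Fin (μ + 1) → ZMod N) :
    1 ≤ tail A (fn r) (μ + 2) +
      (ex A.init (fun x => ∑ i, if x i = opt r then 1 else 0) +
        (ex A.init (fun x => qOpt A r (memory (fn' r) x)) + ex A.init (last A r))) := by
  have ht : tail A (fn r) (μ + 2) = ex A.init fun x => ex (A.query (memory (fn r) x)) fun y =>
      ex (A.keep ((y, fn r y) ::ₘ memory (fn r) x)) fun Y => ex (A.query Y) fun z =>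
        if (∃ i, x i = opt r) ∨ y = opt r ∨ z = opt r then 0 else 1 := by
    rw [tail_eq]
    show ex (((A.init.map _).bind (round A (fn r))).bind (round A (fn r))) alive = _
    rw [ex_bind, ex_bind, ex_map]
    congr 1
    funext x
    unfold round
    rw [ex_bind]
    congr 1
    funext y
    rw [ex_map]
    congr 1
    funext Y
    rw [ex_bind]
    congr 1
    funext z
    rw [ex_map]
    simp only [alive, isMaximiser_iff]
    rw [ex_const]
    by_cases h1 : ∃ i, x i = opt r
    · simp [h1]
    · by_cases h2 : y = opt r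
      · simp [h2]
      · by_cases h3 : z = opt r
        · simp [h3]
        · have h4 : ∀ i, ¬ x i = opt r := fun i hi => h1 ⟨i, hi⟩
          simp [h2, h3, h4]
  -- compare with the dummy process
  have ht2 : (ex A.init fun x => ex (A.query (memory (fn' r) x)) fun y =>
      ex (A.keep ((y, fn' r y) ::ₘ memory (fn' r) x)) fun Y => ex (A.query Y) fun z =>
        if (∃ i, x i = opt r) ∨ y = opt r ∨ z = opt r then 0 else 1) =
      tail A (fn r) (μ + 2) := by
    rw [ht]
    congr 1
    funext x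
    by_cases h1 : ∃ i, x i = opt r
    · simp only [h1, true_or, if_true, ex_const]
    · have hmem : memory (fn' r) x = memory (fn r) x := by
        unfold memory
        refine Multiset.map_congr rfl fun i _ => ?_
        rw [fn'_eq r (fun h => h1 ⟨i, h⟩)]
      rw [hmem]
      congr 1
      funext y
      by_cases h2 : y = opt r
      · simp only [h2, true_or, or_true, if_true, ex_const]
      · rw [fn'_eq r h2]
  rw [← ht2]
  unfold last qOpt
  rw [← ex_add, ← ex_add, ← ex_add]
  refine le_trans (ex_const A.init 1).ge (ex_mono _ fun x _ => ?_)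
  have hq : A.query (memory (fn' r) x) (opt r) =
      ex (A.query (memory (fn' r) x)) (fun y => if y = opt r then 1 else 0) := by
    unfold ex
    rw [tsum_fintype]
    simp
  rw [hq]
  rw [← ex_const (A.query (memory (fn' r) x)) (∑ i, if x i = opt r then (1 : ℝ≥0∞) else 0),
    ← ex_add, ← ex_add, ← ex_add]
  refine le_trans (ex_const (A.query (memory (fn' r) x)) 1).ge (ex_mono _ fun y _ => ?_)
  set M := (y, fn' r y) ::ₘ memory (fn' r) x with hM
  rw [← ex_const (A.keep M) (if y = opt r then (1 : ℝ≥0∞) else 0), ← ex_add,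
    ← ex_const (A.keep M) (∑ i, if x i = opt r then (1 : ℝ≥0∞) else 0), ← ex_add, ← ex_add]
  refine le_trans (ex_const (A.keep M) 1).ge (ex_mono _ fun Y _ => ?_)
  have hq2 : A.query Y (opt r) = ex (A.query Y) (fun z => if z = opt r then 1 else 0) := by
    unfold ex
    rw [tsum_fintype]
    simp
  rw [hq2]
  rw [← ex_const (A.query Y) (if y = opt r then (1 : ℝ≥0∞) else 0), ← ex_add,
    ← ex_const (A.query Y) (∑ i, if x i = opt r then (1 : ℝ≥0∞) else 0), ← ex_add, ← ex_add]
  refine le_trans (ex_const (A.query Y) 1).ge (ex_mono _ fun z _ => ?_)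
  by_cases h1 : ∃ i, x i = opt r
  · obtain ⟨i, hi⟩ := h1
    have h2 : (1 : ℝ≥0∞) ≤ ∑ i, if x i = opt r then (1 : ℝ≥0∞) else 0 := by
      calc (1 : ℝ≥0∞) = if x i = opt r then 1 else 0 := by rw [if_pos hi]
        _ ≤ _ := single_le_sum (f := fun i => if x i = opt r then (1 : ℝ≥0∞) else 0)
          (fun _ _ => bot_le) (mem_univ i)
    exact h2.trans (le_add_self.trans' le_self_add)
  · by_cases h2 : y = opt r
    · rw [if_pos h2]
      exact le_add_self.trans' (le_add_self.trans' le_self_add)
    · by_cases h3 : z = opt r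
      · rw [if_pos h3]
        exact le_add_self.trans' (le_add_self.trans' le_add_self)
      · rw [if_neg (by
          rintro (h | h | h)
          · exact h1 h
          · exact h2 h
          · exact h3 h)]
        exact le_self_add

lemma sum_tail :
    (N : ℝ≥0∞) * (Fintype.card (Fin (μ + 1) → ZMod N) : ℕ) ≤
      (N : ℝ≥0∞) * ∑ r, tail A (fn r) (μ + 2) +
        (2 * μ + 3 : ℕ) * (Fintype.card (Fin (μ + 1) → ZMod N) : ℕ) := by
  set K : ℝ≥0∞ := ((Fintype.card (Fin (μ + 1) → ZMod N) : ℕ) : ℝ≥0∞) with hK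
  have h1 : K ≤ ∑ r, (tail A (fn r) (μ + 2) +
      (ex A.init (fun x => ∑ i, if x i = opt r then 1 else 0) +
        (ex A.init (fun x => qOpt A r (memory (fn' r) x)) + ex A.init (last A r)))) := by
    calc K = ∑ _r : Fin (μ + 1) → ZMod N, (1 : ℝ≥0∞) := by simp [hK]
      _ ≤ _ := sum_le_sum fun r _ => one_le A r
  rw [sum_add_distrib, sum_add_distrib, sum_add_distrib] at h1
  have h2 := mul_le_mul_right h1 (N : ℝ≥0∞)
  rw [mul_add, mul_add, mul_add] at h2
  refine h2.trans (add_le_add le_rfl ?_)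
  -- the initial queries
  have h3 : (N : ℝ≥0∞) * ∑ r, ex A.init (fun x => ∑ i, if x i = opt r then 1 else 0) ≤
      (μ : ℕ) * K := by
    rw [← ex_sum]
    have h4 : ∀ x : Fin μ → Space μ N,
        (N : ℝ≥0∞) * ∑ r, ∑ i, (if x i = opt r then (1 : ℝ≥0∞) else 0) ≤ (μ : ℕ) * K := by
      intro x
      rw [sum_comm, mul_sum]
      calc _ ≤ ∑ _i : Fin μ, K := by
            refine sum_le_sum fun i _ => ?_
            unfold opt
            rw [uniform (0 : Fin (μ + 1)) (fun _ z => if x i = Sum.inr z then (1 : ℝ≥0∞) else 0)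
              (fun _ _ => rfl)]
            calc _ ≤ ∑ _r : Fin (μ + 1) → ZMod N, (1 : ℝ≥0∞) := by
                  refine sum_le_sum fun r _ => ?_
                  rcases x i with j | w
                  · simp
                  · simp only [Sum.inr.injEq]
                    simp
              _ = K := by simp [hK]
        _ = (μ : ℕ) * K := by simp
    calc _ = ex A.init (fun x => (N : ℝ≥0∞) *
          ∑ r, ∑ i, (if x i = opt r then (1 : ℝ≥0∞) else 0)) := by
          unfold ex
          rw [← ENNReal.tsum_mul_left]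
          refine tsum_congr fun x => ?_
          ring
      _ ≤ ex A.init (fun _ => (μ : ℕ) * K) := ex_mono _ fun x _ => h4 x
      _ = _ := ex_const _ _
  have h4 : (N : ℝ≥0∞) * ∑ r, ex A.init (fun x => qOpt A r (memory (fn' r) x)) ≤ K := by
    rw [← ex_sum]
    calc _ = ex A.init (fun x => (N : ℝ≥0∞) * ∑ r, qOpt A r (memory (fn' r) x)) := by
          unfold ex
          rw [← ENNReal.tsum_mul_left]
          refine tsum_congr fun x => ?_
          ring
      _ ≤ ex A.init (fun _ => K) := by
          refine ex_mono _ fun x _ => ?_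
          obtain ⟨j, hj⟩ := exists_missing x
          exact sum_qOpt_le A j (fun r => memory (fn' r) x) (fun r a => memory_shift r j a hj)
      _ = K := ex_const _ _
  have h5 : (N : ℝ≥0∞) * ∑ r, ex A.init (last A r) ≤ (μ + 2 : ℕ) * K := by
    rw [← ex_sum A.init univ (fun r => last A r)]
    calc _ = ex A.init (fun x => (N : ℝ≥0∞) * ∑ r, last A r x) := by
          unfold ex
          rw [← ENNReal.tsum_mul_left]
          refine tsum_congr fun x => ?_
          ring
      _ ≤ ex A.init (fun _ => (μ + 2 : ℕ) * K) := ex_mono _ fun x _ => sum_last_le A x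
      _ = _ := ex_const _ _
  calc _ ≤ (μ : ℕ) * K + (K + (μ + 2 : ℕ) * K) := add_le_add h3 (add_le_add h4 h5)
    _ = (2 * μ + 3 : ℕ) * K := by push_cast; ring

end Lower

lemma lower (μ N : ℕ) [NeZero N] (A : Alg (Space μ N) μ) :
    ((μ + 3 : ℕ) : ℝ≥0∞) - ((μ + 3) * (2 * μ + 3) : ℕ) / N ≤ ⨆ f ∈ cls μ N, expTime A f := by
  set K : ℕ := Fintype.card (Fin (μ + 1) → ZMod N) with hK
  have hKpos : 0 < K := Fintype.card_pos
  set s : ℝ≥0∞ := ⨆ f ∈ cls μ N, expTime A f with hs
  have h1 : ∀ r : Fin (μ + 1) → ZMod N, ((μ + 3 : ℕ) : ℝ≥0∞) * tail A (fn r) (μ + 2) ≤ s := by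
    intro r
    have h2 : expTime A (fn r) ≤ s := le_iSup₂_of_le (fn r) ⟨r, rfl⟩ le_rfl
    refine le_trans ?_ h2
    unfold expTime
    calc ((μ + 3 : ℕ) : ℝ≥0∞) * tail A (fn r) (μ + 2)
        = ∑ _t ∈ range (μ + 3), tail A (fn r) (μ + 2) := by simp
      _ ≤ ∑ t ∈ range (μ + 3), tail A (fn r) t :=
          sum_le_sum fun t ht => tail_antitone_small A (fn r) (mem_range.1 ht)
      _ ≤ _ := ENNReal.sum_le_tsum _
  have h2 := sum_tail A
  have h3 : ((μ + 3 : ℕ) : ℝ≥0∞) * ((N : ℝ≥0∞) * (K : ℕ)) ≤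
      (N : ℝ≥0∞) * ((K : ℕ) * s) + ((μ + 3) * (2 * μ + 3) : ℕ) * (K : ℕ) := by
    calc ((μ + 3 : ℕ) : ℝ≥0∞) * ((N : ℝ≥0∞) * (K : ℕ)) ≤ ((μ + 3 : ℕ) : ℝ≥0∞) *
          ((N : ℝ≥0∞) * ∑ r, tail A (fn r) (μ + 2) + (2 * μ + 3 : ℕ) * (K : ℕ)) :=
            mul_le_mul_right h2 _
      _ = (N : ℝ≥0∞) * ∑ r, ((μ + 3 : ℕ) : ℝ≥0∞) * tail A (fn r) (μ + 2) +
          ((μ + 3) * (2 * μ + 3) : ℕ) * (K : ℕ) := by
            rw [← mul_sum]
            push_cast
            ring
      _ ≤ _ := by
            refine add_le_add (mul_le_mul_right ?_ _) le_rfl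
            calc _ ≤ ∑ _r : Fin (μ + 1) → ZMod N, s := sum_le_sum fun r _ => h1 r
              _ = (K : ℕ) * s := by simp [hK]
  have hN0 : (N : ℝ≥0∞) ≠ 0 := by exact_mod_cast NeZero.ne N
  have hNt : (N : ℝ≥0∞) ≠ ⊤ := ENNReal.natCast_ne_top _
  have hK0 : (K : ℝ≥0∞) ≠ 0 := by exact_mod_cast hKpos.ne'
  have hKt : (K : ℝ≥0∞) ≠ ⊤ := ENNReal.natCast_ne_top _
  rw [tsub_le_iff_right]
  have h4 : ((N : ℝ≥0∞) * (K : ℕ)) * ((μ + 3 : ℕ) : ℝ≥0∞) ≤
      ((N : ℝ≥0∞) * (K : ℕ)) * (s + ((μ + 3) * (2 * μ + 3) : ℕ) / N) := by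
    calc _ = ((μ + 3 : ℕ) : ℝ≥0∞) * ((N : ℝ≥0∞) * (K : ℕ)) := mul_comm _ _
      _ ≤ _ := h3
      _ = _ := by
          have h5 : (N : ℝ≥0∞) * (K : ℕ) * ((((μ + 3) * (2 * μ + 3) : ℕ) : ℝ≥0∞) / N) =
              ((((μ + 3) * (2 * μ + 3) : ℕ) : ℝ≥0∞)) * (K : ℕ) := by
            rw [mul_comm (N : ℝ≥0∞) ((K : ℕ) : ℝ≥0∞), mul_assoc, ENNReal.mul_div_cancel hN0 hNt,
              mul_comm]
          rw [mul_add ((N : ℝ≥0∞) * (K : ℕ)), h5, mul_assoc]
  exact (ENNReal.mul_le_mul_iff_right (mul_ne_zero hN0 hK0) (ENNReal.mul_ne_top hNt hKt)).1 h4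

/-- **Separation of consecutive memory sizes.** For every `μ` there are a finite set `S` and a
class `F` of functions on `S` whose `(μ + 1)` memory-restricted black-box complexity is larger than
its `(μ + 2)` memory-restricted black-box complexity. -/
theorem result : ∀ μ : ℕ, ∃ (S : Type) (_ : Finite S) (F : Set (S → ℝ)),
    complexity (μ + 1) F < complexity μ F := by
  intro μ
  set N : ℕ := (μ + 3) * (2 * μ + 3) + 1 with hN
  have : NeZero N := ⟨by omega⟩
  refine ⟨Space μ N, inferInstance, cls μ N, ?_⟩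
  refine lt_of_le_of_lt (upper μ N) ?_
  refine lt_of_lt_of_le ?_ (le_iInf fun A => lower μ N A)
  rw [lt_tsub_iff_right]
  have h1 : ((((μ + 3) * (2 * μ + 3) : ℕ) : ℝ≥0∞) / N) < 1 := by
    rw [ENNReal.div_lt_iff (Or.inl (by exact_mod_cast NeZero.ne N))
      (Or.inl (ENNReal.natCast_ne_top _)), one_mul]
    exact_mod_cast (by omega : (μ + 3) * (2 * μ + 3) < N)
  calc ((μ + 2 : ℕ) : ℝ≥0∞) + (((μ + 3) * (2 * μ + 3) : ℕ) : ℝ≥0∞) / N
      < ((μ + 2 : ℕ) : ℝ≥0∞) + 1 := by
        exact ENNReal.add_lt_add_left (ENNReal.natCast_ne_top _) h1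
    _ = ((μ + 3 : ℕ) : ℝ≥0∞) := by push_cast; ring

end Pool.Agent.Results.MP_baa74b_lc.MemorySeparation
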